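import Pool.Agent.H.MP_6540cb_lc.A

set_option autoImplicit false

namespace Pool.Agent.Results.MP_6540cb_lc.BaireOnly
open Pool.Agent.H.MP_6540cb_lc MeasureTheory

theorem result : ∀ d : ℕ, 2 ≤ d →
    ∃ (k : ℕ) (W : Finset (Fin d → ℤ)) (B : Set ({w // w ∈ W} → Fin k)),
      (∃ T : Free d → (Fin d → ℤ) → Fin k, EqTo (SFT W B) T ∧
        ∀ U, IsOpen U → BaireMeasurableSet (T ⁻¹' U)) ∧
      ¬ (∀ μ : Measure (Free d), IsProbabilityMeasure μ →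
        ∃ T : Free d → (Fin d → ℤ) → Fin k, EqTo (SFT W B) T ∧ NullMeasurable T μ) ∧
      ¬ ∃ T : Free d → (Fin d → ℤ) → Fin k, EqTo (SFT W B) T ∧ Measurable T := by
  intro d hd
  obtain ⟨i0, i1, hi⟩ : ∃ i0 i1 : Fin d, i0 ≠ i1 := ⟨⟨0, by omega⟩, ⟨1, by omega⟩, by simp⟩
  have hw : ∀ g : Fin d → ℤ, (∀ i, |g i| ≤ 4) → g ∈ (H.MP_141b7f_lc.box_fin d 4).toFinset :=
    fun g hg => by
      rw [Set.Finite.mem_toFinset]
      exact hg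
  obtain ⟨μ, hμ, h3⟩ := part3 _ _ (H.MP_141b7f_lc.rot_no hi hw)
  exact ⟨_, _, _, part2 hi _ hw, fun h => h3 (h μ hμ),
    fun ⟨T, h1, h2⟩ => h3 ⟨T, h1, h2.nullMeasurable⟩⟩

end Pool.Agent.Results.MP_6540cb_lc.BaireOnly
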